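import Pool.Agent.NPC.Defs

set_option autoImplicit false

/-!
# Exact Euclidean travelling salesman problem, and NP with polynomial advice
-/

namespace Pool.Agent.H536R2.Adv

open Pool.Agent.NPC

/-- The exact Euclidean distance of two points of the integer plane. -/
noncomputable def edist (p q : ℤ × ℤ) : ℝ :=
  Real.sqrt ((p.1 - q.1 : ℝ) ^ 2 + (p.2 - q.2 : ℝ) ^ 2)

/-- The edges of the closed tour which visits the points of a list in the listed order: every
point is joined to the next one, and the last point to the first one. -/
def edges (l : List (ℤ × ℤ)) : List ((ℤ × ℤ) × (ℤ × ℤ)) := l.zip (l.rotate 1)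

/-- The exact length of a closed tour. -/
noncomputable def tourLength (l : List (ℤ × ℤ)) : ℝ := ((edges l).map fun e => edist e.1 e.2).sum

/-- The yes-instances `(p₁, …, pₙ; B)` of EXACT EUCLIDEAN TSP: the points are pairwise distinct,
`B` is positive, and some tour through all the points has length at most `B`. -/
def ExactTSP (I : List (ℤ × ℤ) × ℕ) : Prop :=
  I.1.Nodup ∧ 0 < I.2 ∧ ∃ l : List (ℤ × ℤ), l.Perm I.1 ∧ tourLength l ≤ I.2

/-- EXACT EUCLIDEAN TSP restricted to the instances all of whose points belong to `U N`, where `N`
is the length of the binary code of the instance. -/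
def ExactTSPOn (U : ℕ → Finset (ℤ × ℤ)) : Set (List Bool) :=
  {x | ∃ I : List (ℤ × ℤ) × ℕ, bits I = x ∧ (∀ p ∈ I.1, p ∈ U x.length) ∧ ExactTSP I}

/-- The class `NP/poly`: languages with polynomially bounded certificates which can be verified in
polynomial time with the help of an advice string of polynomial length which depends only on the
length of the input. -/
def InNPPoly (L : Set (List Bool)) : Prop :=
  ∃ (V : List Bool → List Bool) (p : Polynomial ℕ) (adv : ℕ → List Bool), PolyTime V ∧
    (∀ N, (adv N).length ≤ p.eval N) ∧
    ∀ x, x ∈ L ↔ ∃ w : List Bool, w.length ≤ p.eval x.length ∧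
      V (pairBits (pairBits x w) (adv x.length)) = [true]

end Pool.Agent.H536R2.Adv
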