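import Pool.Agent.H536R2.Adv.Pseudo
import Pool.Agent.NPC.Dec
import Pool.Agent.H687R2.IntPoly

set_option autoImplicit false

/-!
# EXACT EUCLIDEAN TSP on universes of polynomial size is in `NP/poly`
-/

namespace Pool.Agent.NPC.H536Adv

open Pool.Agent.H536R2.Adv Finset

/-- entries of the table of pseudo-distances -/
abbrev Entry : Type := ((ℤ × ℤ) × (ℤ × ℤ)) × ℤ

/-- the value of an edge according to the table -/
def look (tab : List Entry) (e : (ℤ × ℤ) × (ℤ × ℤ)) : ℤ :=
  ((tab.filter fun t => decide (t.1 = e)).map fun t => t.2).sum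

/-- the test of the verifier: instance, certificate, advice -/
def test (a : (List (ℤ × ℤ) × ℕ) × List (ℤ × ℤ) × ℤ × List Entry) : Bool :=
  (a.1.1.all fun p => decide ((a.1.1.filter fun q => decide (q = p)).length = 1)) &&
  (decide (0 < a.1.2) &&
  (decide (a.2.1.length = a.1.1.length) &&
  ((a.1.1.all fun p => decide (p ∈ a.2.1)) &&
  (((edges a.2.1).all fun e => decide (e ∈ a.2.2.2.map fun t => t.1)) &&
  decide (((edges a.2.1).map fun e => look a.2.2.2 e).sum ≤ (a.1.2 : ℤ) * a.2.2.1)))))

lemma edges_eq (l : List (ℤ × ℤ)) :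
    edges l = l.zip (l.tail ++ (match l with | [] => [] | a :: _ => [a])) := by
  unfold edges
  cases l with
  | nil => rfl
  | cons a l => simp

lemma poly_edges {α : Type} [TEnc α] {l : α → List (ℤ × ℤ)} (hl : Poly l) :
    Poly (fun a => edges (l a)) := by
  refine (Poly.zip hl (Poly.append (Poly.tail hl) (Poly.listCases (g := fun _ => [])
    (h := fun _ p _ => [p]) hl (Poly.const _) (Poly.cons (Poly.fst (Poly.snd Poly.id))
      (Poly.const _))))).congr fun a => ?_
  rw [edges_eq]
  cases l a <;> rfl

lemma poly_look : Poly (fun p : List Entry × ((ℤ × ℤ) × (ℤ × ℤ)) => look p.1 p.2) := by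
  unfold look
  refine Poly.isum (Poly.map (F := fun _ t => t.2) (Poly.filter
    (p := fun (p : List Entry × ((ℤ × ℤ) × (ℤ × ℤ))) (t : Entry) => decide (t.1 = p.2))
    (Poly.fst Poly.id) ?_) (Poly.snd (Poly.snd Poly.id)))
  exact Poly.decide_eq (Poly.fst (Poly.snd Poly.id)) (Poly.snd (Poly.fst Poly.id))

lemma poly_lookSum : Poly (fun a : List Entry × List ((ℤ × ℤ) × (ℤ × ℤ)) =>
    (a.2.map fun e => look a.1 e).sum) := by
  refine Poly.isum (Poly.map (F := fun (a : List Entry × List ((ℤ × ℤ) × (ℤ × ℤ)))
    (e : (ℤ × ℤ) × (ℤ × ℤ)) => look a.1 e) (Poly.snd Poly.id) ?_)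
  exact Poly.comp (g := fun p : List Entry × ((ℤ × ℤ) × (ℤ × ℤ)) => look p.1 p.2)
    (f := fun x : (List Entry × List ((ℤ × ℤ) × (ℤ × ℤ))) × ((ℤ × ℤ) × (ℤ × ℤ)) => (x.1.1, x.2))
    poly_look (Poly.pair (Poly.fst (Poly.fst Poly.id)) (Poly.snd Poly.id))

attribute [irreducible] look

lemma poly_test : Poly test := by
  unfold test
  refine Poly.and ?_ (Poly.and ?_ (Poly.and ?_ (Poly.and ?_ (Poly.and ?_ ?_))))
  · refine Poly.all (Poly.fst (Poly.fst Poly.id)) ?_
    refine Poly.decide_eq (Poly.length ?_) (Poly.const _)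
    refine Poly.filter (p := fun (x : ((List (ℤ × ℤ) × ℕ) × List (ℤ × ℤ) × ℤ × List Entry) ×
      (ℤ × ℤ)) q => decide (q = x.2)) (Poly.fst (Poly.fst (Poly.fst Poly.id))) ?_
    exact Poly.decide_eq (Poly.snd Poly.id) (Poly.snd (Poly.fst Poly.id))
  · exact Poly.decide_lt (Poly.const _) (Poly.snd (Poly.fst Poly.id))
  · exact Poly.decide_eq (Poly.length (Poly.fst (Poly.snd Poly.id)))
      (Poly.length (Poly.fst (Poly.fst Poly.id)))
  · refine Poly.all (Poly.fst (Poly.fst Poly.id)) ?_
    exact (Poly.decide_mem (f := fun x : ((List (ℤ × ℤ) × ℕ) × List (ℤ × ℤ) × ℤ × List Entry) ×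
      (ℤ × ℤ) => x.2) (Poly.snd Poly.id) (Poly.fst (Poly.snd (Poly.fst Poly.id)))).congr
      fun a => by congr
  · refine Poly.all (poly_edges (Poly.fst (Poly.snd Poly.id))) ?_
    exact (Poly.decide_mem (f := fun x : ((List (ℤ × ℤ) × ℕ) × List (ℤ × ℤ) × ℤ × List Entry) ×
      ((ℤ × ℤ) × (ℤ × ℤ)) => x.2) (Poly.snd Poly.id) (Poly.map (F := fun _ (t : Entry) => t.1)
      (Poly.snd (Poly.snd (Poly.snd (Poly.fst Poly.id))))
      (Poly.fst (Poly.snd Poly.id)))).congr fun a => by congr
  · refine Poly.ile ?_ ?_
    · exact Poly.comp (g := fun a : List Entry × List ((ℤ × ℤ) × (ℤ × ℤ)) =>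
          (a.2.map fun e => look a.1 e).sum)
        (f := fun a : (List (ℤ × ℤ) × ℕ) × List (ℤ × ℤ) × ℤ × List Entry =>
          (a.2.2.2, edges a.2.1))
        poly_lookSum (Poly.pair (Poly.snd (Poly.snd (Poly.snd Poly.id)))
        (poly_edges (Poly.fst (Poly.snd Poly.id))))
    · exact Poly.imul (Poly.natCast (Poly.snd (Poly.fst Poly.id)))
        (Poly.fst (Poly.snd (Poly.snd Poly.id)))

/-- the verifier -/
def verifier (y : List Bool) : Bool :=
  match unbits (List (ℤ × ℤ) × ℕ) (unpair (unpair y).1).1 with
  | none => false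
  | some I => match unbits (List (ℤ × ℤ)) (unpair (unpair y).1).2 with
    | none => false
    | some l => match unbits (ℤ × List Entry) (unpair y).2 with
      | none => false
      | some t => test (I, l, t)

lemma poly_verifier : Poly verifier := by
  have h3 : Poly (fun p : (List Bool × (List (ℤ × ℤ) × ℕ)) × List (ℤ × ℤ) =>
      match unbits (ℤ × List Entry) (unpair p.1.1).2 with
      | none => false
      | some t => test (p.1.2, p.2, t)) :=
    (Poly.optCases (o := fun p : (List Bool × (List (ℤ × ℤ) × ℕ)) × List (ℤ × ℤ) =>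
      unbits (ℤ × List Entry) (unpair p.1.1).2) (g := fun _ => false)
      (h := fun p t => test (p.1.2, p.2, t))
      (poly_unbits.comp (Poly.snd (poly_unpair.comp (Poly.fst (Poly.fst Poly.id)))))
      (Poly.const _)
      (poly_test.comp (Poly.pair (Poly.snd (Poly.fst (Poly.fst Poly.id)))
        (Poly.pair (Poly.snd (Poly.fst Poly.id)) (Poly.snd Poly.id))))).congr fun a => by
          cases unbits (ℤ × List Entry) (unpair a.1.1).2 <;> rfl
  have h2 : Poly (fun p : List Bool × (List (ℤ × ℤ) × ℕ) =>
      match unbits (List (ℤ × ℤ)) (unpair (unpair p.1).1).2 with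
      | none => false
      | some l => match unbits (ℤ × List Entry) (unpair p.1).2 with
        | none => false
        | some t => test (p.2, l, t)) :=
    (Poly.optCases (o := fun p : List Bool × (List (ℤ × ℤ) × ℕ) =>
      unbits (List (ℤ × ℤ)) (unpair (unpair p.1).1).2) (g := fun _ => false)
      (h := fun p l => (fun p : (List Bool × (List (ℤ × ℤ) × ℕ)) × List (ℤ × ℤ) =>
        match unbits (ℤ × List Entry) (unpair p.1.1).2 with
        | none => false
        | some t => test (p.1.2, p.2, t)) (p, l))
      (poly_unbits.comp (Poly.snd (poly_unpair.comp (Poly.fst (poly_unpair.comp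
        (Poly.fst Poly.id)))))) (Poly.const _) h3).congr fun a => by
          cases unbits (List (ℤ × ℤ)) (unpair (unpair a.1).1).2 <;> rfl
  exact (Poly.optCases (o := fun y : List Bool => unbits (List (ℤ × ℤ) × ℕ)
      (unpair (unpair y).1).1) (g := fun _ => false)
    (h := fun y I => (fun p : List Bool × (List (ℤ × ℤ) × ℕ) =>
      match unbits (List (ℤ × ℤ)) (unpair (unpair p.1).1).2 with
      | none => false
      | some l => match unbits (ℤ × List Entry) (unpair p.1).2 with
        | none => false
        | some t => test (p.2, l, t)) (y, I))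
    (poly_unbits.comp (Poly.fst (poly_unpair.comp (Poly.fst poly_unpair)))) (Poly.const _)
    h2).congr fun a => by
      unfold verifier
      cases unbits (List (ℤ × ℤ) × ℕ) (unpair (unpair a).1).1 <;> rfl

lemma sz_perm {l l' : List (ℤ × ℤ)} (h : l.Perm l') : sz l = sz l' := by
  induction h with
  | nil => rfl
  | cons a _ ih => simp [ih]
  | swap a b l => simp; omega
  | trans _ _ ih ih' => exact ih.trans ih'

lemma nodup_of_filter {l : List (ℤ × ℤ)}
    (h : ∀ p ∈ l, (l.filter fun q => decide (q = p)).length = 1) : l.Nodup := by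
  rw [List.nodup_iff_count_le_one]
  intro a
  by_cases ha : a ∈ l
  · have := h a ha
    rw [← List.countP_eq_length_filter] at this
    rw [List.count, ← this]
    apply le_of_eq
    congr 1
    ext q
    by_cases hq : q = a <;> simp [hq]
  · rw [List.count_eq_zero.2 ha]
    omega

lemma filter_of_nodup {l : List (ℤ × ℤ)} (h : l.Nodup) {p : ℤ × ℤ} (hp : p ∈ l) :
    (l.filter fun q => decide (q = p)).length = 1 := by
  rw [← List.countP_eq_length_filter]
  have := List.count_eq_one_of_mem h hp
  rw [List.count] at this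
  rw [← this]
  congr 1
  ext q
  by_cases hq : q = p <;> simp [hq]

lemma mem_edges_left {l : List (ℤ × ℤ)} {p : ℤ × ℤ} (hp : p ∈ l) : ∃ q, (p, q) ∈ edges l := by
  unfold edges
  obtain ⟨i, hi, rfl⟩ := List.getElem_of_mem hp
  have h : i < (l.rotate 1).length := by simpa using hi
  exact ⟨(l.rotate 1)[i], List.mem_iff_getElem.2 ⟨i, by simp [hi], by simp⟩⟩


/-! ### Sizes -/

lemma bnd_le (k m : ℕ) : bnd k (2 ^ m) ≤ 2 ^ (2 * k + m + 4 * k ^ 2 + 4 * m * k) := by
  unfold bnd
  have h1 : k + 1 ≤ 2 ^ k := Nat.lt_two_pow_self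
  have h2 : k.factorial ≤ 2 ^ (k ^ 2) := by
    calc k.factorial ≤ k ^ k := Nat.factorial_le_pow k
      _ ≤ (2 ^ k) ^ k := Nat.pow_le_pow_left (by omega) k
      _ = 2 ^ (k ^ 2) := by rw [← pow_mul, pow_two]
  have h3 : ((k + 1) * (2 ^ m) ^ 2) ^ k ≤ 2 ^ (k ^ 2 + 2 * m * k) := by
    calc ((k + 1) * (2 ^ m) ^ 2) ^ k ≤ (2 ^ k * (2 ^ m) ^ 2) ^ k := by gcongr
      _ = 2 ^ (k ^ 2 + 2 * m * k) := by
        rw [← pow_mul, ← pow_add, ← pow_mul]
        congr 1
        ring
  calc (k + 1) ^ 2 * 2 ^ m * (k.factorial * ((k + 1) * (2 ^ m) ^ 2) ^ k) ^ 2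
      ≤ (2 ^ k) ^ 2 * 2 ^ m * (2 ^ (k ^ 2) * 2 ^ (k ^ 2 + 2 * m * k)) ^ 2 := by gcongr
    _ = 2 ^ (2 * k + m + 4 * k ^ 2 + 4 * m * k) := by
      rw [← pow_add, ← pow_mul, ← pow_mul, ← pow_add, ← pow_add]
      congr 1
      ring

lemma sz_int_of_le {z : ℤ} {E : ℕ} (h : |z| ≤ ((2 ^ E : ℕ) : ℤ)) : sz z ≤ 4 * E + 9 := by
  have h1 := sz_int_le z
  have h2 : z.natAbs ≤ 2 ^ E := by
    have : (z.natAbs : ℤ) = |z| := Int.natCast_natAbs z
    have h3 : (z.natAbs : ℤ) ≤ ((2 ^ E : ℕ) : ℤ) := by rw [this]; exact h
    exact_mod_cast h3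
  have h3 : z.natAbs.size ≤ E + 1 := by
    rw [Nat.size_le]
    calc z.natAbs ≤ 2 ^ E := h2
      _ < 2 ^ (E + 1) := Nat.pow_lt_pow_right (by omega) (by omega)
  omega

/-- exponent of the size of pseudo-distances, as a polynomial -/
noncomputable def expP (q : Polynomial ℕ) : Polynomial ℕ :=
  2 * (q * q + 1) + (Polynomial.X + 1) + 4 * (q * q + 1) ^ 2 +
    4 * (Polynomial.X + 1) * (q * q + 1)

lemma pbnd_le (q : Polynomial ℕ) (N u : ℕ) (hu : u ≤ q.eval N) :
    pbnd u N ≤ 2 ^ ((expP q).eval N) := by
  unfold pbnd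
  refine (bnd_le _ _).trans (Nat.pow_le_pow_right (by norm_num) ?_)
  have e : (expP q).eval N = 2 * (q.eval N * q.eval N + 1) + (N + 1) +
      4 * (q.eval N * q.eval N + 1) ^ 2 + 4 * (N + 1) * (q.eval N * q.eval N + 1) := by
    simp [expP]
  rw [e]
  have : u * u + 1 ≤ q.eval N * q.eval N + 1 := by
    have := Nat.mul_le_mul hu hu
    omega
  gcongr

/-- bound for the length of the advice -/
noncomputable def advP (q : Polynomial ℕ) : Polynomial ℕ :=
  q * q * (2 * Polynomial.X + 4 * expP q + 13) + 4 * expP q + 12 + Polynomial.X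

/-- **EXACT EUCLIDEAN TSP on universes of polynomial size is in `NP/poly`.** -/
theorem main (U : ℕ → Finset (ℤ × ℤ)) (q : Polynomial ℕ) (hU : ∀ N, (U N).card ≤ q.eval N) :
    InNPPoly (ExactTSPOn U) := by
  classical
  -- the points with short codes
  set U' : ℕ → Finset (ℤ × ℤ) := fun N => (U N).filter fun p => sz p ≤ N with hU'
  have hU'card : ∀ N, (U' N).card ≤ q.eval N := fun N =>
    (Finset.card_filter_le _ _).trans (hU N)
  choose s D hs hD hkey using fun N => exists_pseudo (U' N) N
  set tab : ℕ → List Entry := fun N =>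
    (((U' N) ×ˢ (U' N)).toList.map fun e => (e, D N e)) with htab
  have hbd : ∀ N, (pbnd (U' N).card N : ℤ) ≤ ((2 ^ ((expP q).eval N) : ℕ) : ℤ) := fun N => by
    exact_mod_cast pbnd_le q N _ (hU'card N)
  have hlook : ∀ N, ∀ e ∈ (U' N) ×ˢ (U' N), look (tab N) e = D N e := by
    intro N e he
    unfold look
    simp only [htab]
    rw [List.filter_map, List.map_map]
    have h1 : (((U' N) ×ˢ (U' N)).toList.filter ((fun t : Entry => decide (t.1 = e)) ∘
        fun e => (e, D N e))) = [e] := by
      have h2 : ((fun t : Entry => decide (t.1 = e)) ∘ fun e => (e, D N e))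
          = fun x => decide (x = e) := rfl
      rw [h2]
      have h3 := (Finset.nodup_toList ((U' N) ×ˢ (U' N)))
      have h4 : e ∈ ((U' N) ×ˢ (U' N)).toList := Finset.mem_toList.2 he
      generalize ((U' N) ×ˢ (U' N)).toList = l at h3 h4
      induction l with
      | nil => simp at h4
      | cons a l ih =>
        rw [List.nodup_cons] at h3
        rcases List.mem_cons.1 h4 with rfl | h5
        · rw [List.filter_cons_of_pos (by simp)]
          congr 1
          rw [List.filter_eq_nil_iff]
          intro x hx hxe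
          have : x = e := by simpa using hxe
          exact h3.1 (this ▸ hx)
        · have hne : a ≠ e := by
            rintro rfl
            exact h3.1 h5
          rw [List.filter_cons_of_neg (by simpa using hne)]
          exact ih h3.2 h5
    rw [h1]
    simp
  have hmem : ∀ N e, e ∈ (tab N).map (fun t => t.1) ↔ e ∈ (U' N) ×ˢ (U' N) := by
    intro N e
    simp only [htab, List.map_map, List.mem_map, Finset.mem_toList, Function.comp]
    constructor
    · rintro ⟨a, ha, rfl⟩; exact ha
    · intro h; exact ⟨e, h, rfl⟩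
  refine ⟨fun y => [verifier y], advP q, fun N => bits (s N, tab N),
    polyTime_of_poly poly_verifier, ?_, ?_⟩
  · -- size of the advice
    intro N
    rw [bits_length]
    set E := (expP q).eval N with hE
    have h1 : sz (s N) ≤ 4 * E + 9 := sz_int_of_le ((hs N).trans (hbd N))
    have h2 : sz (tab N) ≤ (tab N).length * ((2 * N + 4 * E + 11 + 1) + 1) + 1 := by
      apply sz_le_length_mul
      intro a ha
      simp only [htab, List.mem_map, Finset.mem_toList] at ha
      obtain ⟨e, he, rfl⟩ := ha
      rw [Finset.mem_product] at he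
      have h3 : sz e.1 ≤ N := (Finset.mem_filter.1 he.1).2
      have h4 : sz e.2 ≤ N := (Finset.mem_filter.1 he.2).2
      have h5 : sz (D N e) ≤ 4 * E + 9 := sz_int_of_le ((hD N e).trans (hbd N))
      have h6 : sz (e, D N e) = sz e + sz (D N e) + 1 := sz_pair _ _
      have h7 : sz e = sz e.1 + sz e.2 + 1 := by
        rcases e with ⟨e1, e2⟩
        exact sz_pair _ _
      omega
    have h3 : (tab N).length ≤ q.eval N * q.eval N := by
      simp only [htab, List.length_map, Finset.length_toList, Finset.card_product]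
      exact Nat.mul_le_mul (hU'card N) (hU'card N)
    have h4 : sz (s N, tab N) = sz (s N) + sz (tab N) + 1 := sz_pair _ _
    have e : (advP q).eval N = q.eval N * q.eval N * (2 * N + 4 * E + 13) + 4 * E + 12 + N := by
      simp [advP, hE]
    rw [h4, e]
    have h5 : (tab N).length * ((2 * N + 4 * E + 11 + 1) + 1) ≤
        q.eval N * q.eval N * (2 * N + 4 * E + 13) := Nat.mul_le_mul h3 (by omega)
    omega
  · intro x
    set N := x.length with hN
    constructor
    · rintro ⟨I, hI, hIU, hnd, hB, l, hl, hlen⟩
      have hszI : sz I = N := by rw [hN, ← hI, bits_length]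
      have hszI' : sz I = sz I.1 + sz I.2 + 1 := sz_pair _ _
      have hmemU : ∀ p ∈ I.1, p ∈ U' N := by
        intro p hp
        rw [hU', Finset.mem_filter]
        refine ⟨hIU p hp, ?_⟩
        have := sz_le_of_mem hp
        omega
      have hmemUl : ∀ p ∈ l, p ∈ U' N := fun p hp => hmemU p (hl.mem_iff.1 hp)
      have hlenN : l.length ≤ 2 ^ N := by
        have h1 := length_lt_sz I.1
        have h2 := hl.length_eq
        have h3 : N < 2 ^ N := Nat.lt_two_pow_self
        omega
      have hBN : I.2 ≤ 2 ^ N := by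
        have h1 := size_le_sz I.2
        have h2 : I.2 < 2 ^ I.2.size := Nat.lt_size_self _
        have h3 : 2 ^ I.2.size ≤ 2 ^ N := Nat.pow_le_pow_right (by norm_num) (by omega)
        omega
      refine ⟨bits l, ?_, ?_⟩
      · rw [bits_length, sz_perm hl]
        have e : (advP q).eval N = q.eval N * q.eval N * (2 * N + 4 * (expP q).eval N + 13)
            + 4 * (expP q).eval N + 12 + N := by
          simp [advP]
        rw [e]
        omega
      · have hx : unbits (List (ℤ × ℤ) × ℕ) x = some I := by rw [← hI, unbits_bits]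
        unfold verifier
        simp only [unpair_pairBits, hx, unbits_bits]
        congr 1
        unfold test
        simp only [Bool.and_eq_true, decide_eq_true_eq, List.all_eq_true]
        refine ⟨fun p hp => filter_of_nodup hnd hp, hB, hl.length_eq, fun p hp =>
          hl.mem_iff.2 hp, ?_, ?_⟩
        · intro e he
          rw [hmem]
          have h2 := List.of_mem_zip he
          exact Finset.mem_product.2 ⟨hmemUl _ h2.1, hmemUl _ (List.mem_rotate.1 h2.2)⟩
        · have h1 := (hkey N l I.2 hmemUl hlenN hBN).1 hlen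
          have h2 : (edges l).map (fun e => look (tab N) e) = (edges l).map (D N) := by
            apply List.map_congr_left
            intro e he
            have h2 := List.of_mem_zip he
            exact hlook N e (Finset.mem_product.2
              ⟨hmemUl _ h2.1, hmemUl _ (List.mem_rotate.1 h2.2)⟩)
          rw [h2]
          exact h1
    · rintro ⟨w, -, hw⟩
      simp only [List.cons.injEq, and_true] at hw
      unfold verifier at hw
      simp only [unpair_pairBits, unbits_bits] at hw
      cases hx : unbits (List (ℤ × ℤ) × ℕ) x with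
      | none => rw [hx] at hw; simp at hw
      | some I =>
        rw [hx] at hw
        cases hl : unbits (List (ℤ × ℤ)) w with
        | none => rw [hl] at hw; simp at hw
        | some l =>
          rw [hl] at hw
          simp only at hw
          unfold test at hw
          simp only [Bool.and_eq_true, decide_eq_true_eq, List.all_eq_true] at hw
          obtain ⟨h1, h2, h3, h4, h5, h6⟩ := hw
          have hxI : bits I = x := bits_of_unbits hx
          have hnd := nodup_of_filter h1
          have hperm : l.Perm I.1 := by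
            have hsub : I.1.Subperm l := (List.subperm_of_subset hnd h4)
            exact (hsub.perm_of_length_le h3.le).symm
          have hszI : sz I = N := by rw [hN, ← hxI, bits_length]
          have hszI' : sz I = sz I.1 + sz I.2 + 1 := sz_pair _ _
          have hmemUl : ∀ p ∈ l, p ∈ U' N := by
            intro p hp
            obtain ⟨r, hr⟩ := mem_edges_left hp
            have h7 := h5 _ hr
            rw [hmem] at h7
            exact (Finset.mem_product.1 h7).1
          have hlenN : l.length ≤ 2 ^ N := by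
            have h1 := length_lt_sz I.1
            have h3' : N < 2 ^ N := Nat.lt_two_pow_self
            omega
          have hBN : I.2 ≤ 2 ^ N := by
            have h1 := size_le_sz I.2
            have h2 : I.2 < 2 ^ I.2.size := Nat.lt_size_self _
            have h3 : 2 ^ I.2.size ≤ 2 ^ N := Nat.pow_le_pow_right (by norm_num) (by omega)
            omega
          refine ⟨I, hxI, ?_, hnd, h2, l, hperm, ?_⟩
          · intro p hp
            have := hmemUl p (hperm.mem_iff.2 hp)
            rw [hU', Finset.mem_filter] at this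
            exact this.1
          · rw [hkey N l I.2 hmemUl hlenN hBN]
            have h7 : (edges l).map (fun e => look (tab N) e) = (edges l).map (D N) := by
              apply List.map_congr_left
              intro e he
              have h8 := List.of_mem_zip he
              exact hlook N e (Finset.mem_product.2
                ⟨hmemUl _ h8.1, hmemUl _ (List.mem_rotate.1 h8.2)⟩)
            rw [h7] at h6
            exact h6

end Pool.Agent.NPC.H536Adv
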