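import Mathlib

set_option autoImplicit false

/-!
# Small solutions of systems of linear inequalities
-/

namespace Pool.Agent.H536R2.Adv

open Matrix Finset

/-- The size bound. -/
def bnd (k H : ℕ) : ℕ := (k + 1) ^ 2 * H * (k.factorial * ((k + 1) * H ^ 2) ^ k) ^ 2

section

variable {ι J : Type} [Fintype ι] [DecidableEq ι] [Finite J]

/-- slack -/
noncomputable def slk (a : J → ι → ℤ) (β : J → ℤ) (x : ι → ℝ) (j : J) : ℝ :=
  ∑ i, (a j i : ℝ) * x i - β j

/-- real row -/
def rw' (a : J → ι → ℤ) (j : J) : ι → ℝ := fun i => a j i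

/-- the space spanned by the tight rows -/
noncomputable def tsp (a : J → ι → ℤ) (β : J → ℤ) (x : ι → ℝ) : Submodule ℝ (ι → ℝ) :=
  Submodule.span ℝ (rw' a '' {j | slk a β x j = 0})

omit [DecidableEq ι] in
lemma exists_step (a : J → ι → ℤ) (β : J → ℤ) (x : ι → ℝ) (hx : ∀ j, 0 ≤ slk a β x j) (j₀ : J)
    (hj₀ : rw' a j₀ ∉ tsp a β x) :
    ∃ x' : ι → ℝ, (∀ j, 0 ≤ slk a β x' j) ∧ tsp a β x < tsp a β x' := by
  classical
  obtain ⟨f, hf, hW⟩ := Submodule.exists_dual_map_eq_bot_of_notMem hj₀ inferInstance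
  have hW0 : ∀ w ∈ tsp a β x, f w = 0 := by
    intro w hw
    have : f w ∈ (tsp a β x).map f := Submodule.mem_map_of_mem hw
    rw [hW] at this
    simpa using this
  -- sign
  obtain ⟨g, hg0, hgW⟩ : ∃ g : (ι → ℝ) →ₗ[ℝ] ℝ, g (rw' a j₀) < 0 ∧ ∀ w ∈ tsp a β x, g w = 0 := by
    rcases lt_or_gt_of_ne hf with h | h
    · exact ⟨f, h, hW0⟩
    · exact ⟨-f, by simpa using h, fun w hw => by simp [hW0 w hw]⟩
  set u : ι → ℝ := fun i => g (Pi.single i 1) with hu
  have hgu : ∀ j, ∑ i, (a j i : ℝ) * u i = g (rw' a j) := by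
    intro j
    have := LinearMap.pi_apply_eq_sum_univ g (rw' a j)
    rw [this]
    refine Finset.sum_congr rfl fun i _ => ?_
    simp only [rw', smul_eq_mul, hu]
    congr 2
    ext k
    simp [Pi.single_apply, eq_comm]
  have hslk : ∀ (t : ℝ) (j : J), slk a β (fun i => x i + t * u i) j
      = slk a β x j + t * g (rw' a j) := by
    intro t j
    rw [← hgu j]
    unfold slk
    rw [Finset.mul_sum]
    have : ∑ i, (a j i : ℝ) * (x i + t * u i)
        = ∑ i, (a j i : ℝ) * x i + ∑ i, t * ((a j i : ℝ) * u i) := by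
      rw [← Finset.sum_add_distrib]
      exact Finset.sum_congr rfl fun i _ => by ring
    rw [this]
    ring
  have := Fintype.ofFinite J
  set N : Finset J := Finset.univ.filter fun j => g (rw' a j) < 0 with hN
  have hNne : N.Nonempty := ⟨j₀, by simp [hN, hg0]⟩
  obtain ⟨j₁, hj₁, hmin⟩ := N.exists_min_image (fun j => slk a β x j / (-g (rw' a j))) hNne
  have hj₁' : g (rw' a j₁) < 0 := by simpa [hN] using hj₁
  set t : ℝ := slk a β x j₁ / (-g (rw' a j₁)) with ht
  have ht0 : 0 ≤ t := div_nonneg (hx j₁) (by linarith)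
  refine ⟨fun i => x i + t * u i, ?_, ?_⟩
  · intro j
    rw [hslk]
    by_cases hj : g (rw' a j) < 0
    · have h1 := hmin j (by simp [hN, hj])
      have h2 : t ≤ slk a β x j / (-g (rw' a j)) := h1
      rw [le_div_iff₀ (by linarith)] at h2
      linarith
    · push Not at hj
      have := hx j
      have := mul_nonneg ht0 hj
      linarith
  · refine lt_of_le_of_ne (Submodule.span_mono ?_) ?_
    · rintro _ ⟨j, hj, rfl⟩
      refine ⟨j, ?_, rfl⟩
      have h1 : slk a β x j = 0 := hj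
      have h2 : g (rw' a j) = 0 := hgW _ (Submodule.subset_span ⟨j, hj, rfl⟩)
      simp only [Set.mem_ofPred_eq]
      rw [hslk, h1, h2]
      ring
    · intro heq
      have h1 : slk a β (fun i => x i + t * u i) j₁ = 0 := by
        have hne := hj₁'.ne
        rw [hslk, ht, div_neg, neg_mul, div_mul_cancel₀ _ hne]
        ring
      have h2 : rw' a j₁ ∈ tsp a β x := by
        rw [heq]
        exact Submodule.subset_span ⟨j₁, h1, rfl⟩
      have := hgW _ h2
      linarith

omit [DecidableEq ι] in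
lemma exists_full (a : J → ι → ℤ) (β : J → ℤ) : ∀ (n : ℕ) (x : ι → ℝ),
    Fintype.card ι - Module.finrank ℝ (tsp a β x) ≤ n →
    (∀ j, 0 ≤ slk a β x j) →
    ∃ x' : ι → ℝ, (∀ j, 0 ≤ slk a β x' j) ∧ ∀ j, rw' a j ∈ tsp a β x' := by
  intro n
  induction n with
  | zero =>
    intro x hn hx
    refine ⟨x, hx, fun j => ?_⟩
    have h1 : Module.finrank ℝ (tsp a β x) ≤ Fintype.card ι := by
      have := Submodule.finrank_le (tsp a β x)
      simpa using this
    have h2 : tsp a β x = ⊤ := by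
      apply Submodule.eq_top_of_finrank_eq
      simp only [Module.finrank_fintype_fun_eq_card]
      omega
    rw [h2]
    trivial
  | succ n ih =>
    intro x hn hx
    by_cases h : ∀ j, rw' a j ∈ tsp a β x
    · exact ⟨x, hx, h⟩
    · push Not at h
      obtain ⟨j₀, hj₀⟩ := h
      obtain ⟨x', hx', hlt⟩ := exists_step a β x hx j₀ hj₀
      have h1 := Submodule.finrank_lt_finrank_of_lt hlt
      exact ih x' (by omega) hx'

end

lemma abs_sum_le_card {κ : Type} [Fintype κ] (f : κ → ℤ) (B : ℤ) (h : ∀ k, |f k| ≤ B) :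
    |∑ k, f k| ≤ Fintype.card κ * B := by
  refine (Finset.abs_sum_le_sum_abs _ _).trans ?_
  refine (Finset.sum_le_sum fun k _ => h k).trans ?_
  simp

/-- **Small solutions.** A solvable system of linear inequalities with small integer coefficients
has a solution with small numerators and a small common denominator. -/
theorem exists_small_solution {ι J : Type} [Fintype ι] [DecidableEq ι] [Finite J]
    (a : J → ι → ℤ) (β : J → ℤ) (H : ℕ) (hH : 1 ≤ H) (ha : ∀ j i, |a j i| ≤ H)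
    (hβ : ∀ j, |β j| ≤ 1) (x : ι → ℝ) (hx : ∀ j, (β j : ℝ) ≤ ∑ i, (a j i : ℝ) * x i) :
    ∃ (D : ℤ) (N : ι → ℤ), 0 < D ∧ D ≤ bnd (Fintype.card ι) H ∧
      (∀ i, |N i| ≤ bnd (Fintype.card ι) H) ∧ ∀ j, D * β j ≤ ∑ i, a j i * N i := by
  classical
  obtain ⟨y, hy, hfull⟩ := exists_full a β _ x le_rfl (fun j => by
    unfold slk
    linarith [hx j])
  -- a basis of the tight rows
  obtain ⟨b, hb, hspan, hli⟩ := exists_linearIndependent ℝ (rw' a '' {j | slk a β y j = 0})
  have : Finite b := hli.setFinite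
  have : Fintype b := Fintype.ofFinite b
  have hcard : Fintype.card b ≤ Fintype.card ι := by
    have := hli.fintype_card_le_finrank
    simpa using this
  choose jj hjj hjj' using fun k : b => hb k.2
  set M : Matrix b ι ℤ := fun k i => a (jj k) i with hM
  set G : Matrix b b ℤ := M * Mᵀ with hG
  set β' : b → ℤ := fun k => β (jj k) with hβ'
  set D₀ : ℤ := G.det with hD₀
  set N₀ : ι → ℤ := Mᵀ *ᵥ (G.adjugate *ᵥ β') with hN₀
  set k : ℕ := Fintype.card ι with hk
  have hrow : ∀ (κ : b) (i : ι), (κ : ι → ℝ) i = (M κ i : ℝ) := by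
    intro κ i
    rw [← hjj' κ]
    rfl
  have hD₀ne : D₀ ≠ 0 := by
    intro h0
    obtain ⟨v, hv, hGv⟩ := Matrix.exists_mulVec_eq_zero_iff.2 h0
    have h1 : (Mᵀ *ᵥ v) ⬝ᵥ (Mᵀ *ᵥ v) = 0 := by
      have h2 : v ⬝ᵥ (G *ᵥ v) = 0 := by rw [hGv]; simp
      rw [hG, ← Matrix.mulVec_mulVec, Matrix.dotProduct_mulVec, ← Matrix.mulVec_transpose] at h2
      exact h2
    have h3 : Mᵀ *ᵥ v = 0 := dotProduct_self_eq_zero.1 h1
    apply hv
    have h4 := (Fintype.linearIndependent_iff.1 hli) (fun κ => (v κ : ℝ)) (by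
      ext i
      have := congrFun h3 i
      simp only [Matrix.mulVec, dotProduct, Matrix.transpose_apply, Pi.zero_apply] at this
      simp only [Finset.sum_apply, Pi.smul_apply, smul_eq_mul, Pi.zero_apply]
      have h5 : ((∑ κ, M κ i * v κ : ℤ) : ℝ) = 0 := by rw [this]; simp
      push_cast at h5
      rw [← h5]
      refine Finset.sum_congr rfl fun κ _ => ?_
      rw [hrow κ i]
      ring)
    ext κ
    have := h4 κ
    exact_mod_cast this
  have hMN : M *ᵥ N₀ = D₀ • β' := by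
    rw [hN₀, Matrix.mulVec_mulVec, ← hG, Matrix.mulVec_mulVec, Matrix.mul_adjugate,
      Matrix.smul_mulVec, Matrix.one_mulVec]
  -- all rows
  have hall : ∀ j, ((∑ i, a j i * N₀ i : ℤ) : ℝ) = D₀ * ∑ i, (a j i : ℝ) * y i := by
    intro j
    have h1 : rw' a j ∈ Submodule.span ℝ b := by
      rw [hspan]
      exact hfull j
    have h1' : rw' a j ∈ Submodule.span ℝ (Set.range (Subtype.val : b → ι → ℝ)) := by
      rwa [Subtype.range_coe]
    obtain ⟨c, hc⟩ := (Submodule.mem_span_range_iff_exists_fun ℝ).1 h1'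
    have h2 : ∀ i, (a j i : ℝ) = ∑ κ, c κ * (M κ i : ℝ) := by
      intro i
      have := congrFun hc i
      simp only [Finset.sum_apply, Pi.smul_apply, smul_eq_mul] at this
      rw [show (a j i : ℝ) = rw' a j i from rfl, ← this]
      exact Finset.sum_congr rfl fun κ _ => by rw [hrow κ i]
    have h3 : ∀ κ, ∑ i, (M κ i : ℝ) * y i = β' κ := by
      intro κ
      have := hjj κ
      simp only [Set.mem_ofPred_eq, slk] at this
      simp only [hM, hβ']
      linarith
    have h4 : ∀ κ, ∑ i, (M κ i : ℝ) * (N₀ i : ℝ) = D₀ * β' κ := by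
      intro κ
      have := congrFun hMN κ
      simp only [Matrix.mulVec, dotProduct, Pi.smul_apply, smul_eq_mul] at this
      exact_mod_cast this
    push_cast
    have e1 : ∑ i, (a j i : ℝ) * (N₀ i : ℝ) = ∑ κ, c κ * (D₀ * β' κ) := by
      simp_rw [h2, Finset.sum_mul]
      rw [Finset.sum_comm]
      refine Finset.sum_congr rfl fun κ _ => ?_
      rw [← h4 κ, Finset.mul_sum]
      exact Finset.sum_congr rfl fun i _ => by ring
    have e2 : ∑ i, (a j i : ℝ) * y i = ∑ κ, c κ * β' κ := by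
      simp_rw [h2, Finset.sum_mul]
      rw [Finset.sum_comm]
      refine Finset.sum_congr rfl fun κ _ => ?_
      rw [← h3 κ, Finset.mul_sum]
      exact Finset.sum_congr rfl fun i _ => by ring
    rw [e1, e2, Finset.mul_sum]
    exact Finset.sum_congr rfl fun κ _ => by ring
  -- bounds
  set X : ℤ := ((k : ℤ) + 1) * (H : ℤ) ^ 2 with hX
  have hX1 : 1 ≤ X := by
    have : (1 : ℤ) ≤ (H : ℤ) := by exact_mod_cast hH
    have h2 : (1 : ℤ) ≤ (H : ℤ) ^ 2 := one_le_pow₀ this
    have h3 : (1 : ℤ) ≤ (k : ℤ) + 1 := by omega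
    nlinarith
  have hGle : ∀ κ κ', |G κ κ'| ≤ X := by
    intro κ κ'
    have h1 : G κ κ' = ∑ i, M κ i * M κ' i := by
      simp [hG, Matrix.mul_apply]
    rw [h1]
    refine (abs_sum_le_card _ ((H : ℤ) ^ 2) fun i => ?_).trans ?_
    · rw [abs_mul, pow_two]
      exact mul_le_mul (ha _ _) (ha _ _) (abs_nonneg _) (by positivity)
    · rw [hX]
      have : (0 : ℤ) ≤ (H : ℤ) ^ 2 := by positivity
      nlinarith
  set E : ℤ := (k.factorial : ℤ) * X ^ k with hE
  have hdet : ∀ (A : Matrix b b ℤ), (∀ κ κ', |A κ κ'| ≤ X) → |A.det| ≤ E := by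
    intro A hA
    have h1 := Matrix.det_le (A := A) (abv := AbsoluteValue.abs) (x := X) hA
    simp only [AbsoluteValue.abs_apply, nsmul_eq_mul] at h1
    refine h1.trans ?_
    rw [hE]
    have h2 : ((Fintype.card b).factorial : ℤ) ≤ (k.factorial : ℤ) := by
      exact_mod_cast Nat.factorial_le hcard
    exact mul_le_mul h2 (pow_le_pow_right₀ hX1 hcard) (by positivity) (by positivity)
  have hD₀le : |D₀| ≤ E := hdet G hGle
  have hadj : ∀ κ κ', |G.adjugate κ κ'| ≤ E := by
    intro κ κ'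
    rw [Matrix.adjugate_apply]
    apply hdet
    intro l l'
    rw [Matrix.updateRow_apply]
    split_ifs
    · rw [Pi.single_apply]
      split_ifs <;> simp <;> omega
    · exact hGle _ _
  have hE1 : 1 ≤ E := by
    rw [hE]
    have h1 : (1 : ℤ) ≤ (k.factorial : ℤ) := by exact_mod_cast Nat.factorial_pos k
    have h2 : (1 : ℤ) ≤ X ^ k := one_le_pow₀ hX1
    nlinarith
  have hcardb : (Fintype.card b : ℤ) ≤ (k : ℤ) + 1 := by
    have : (Fintype.card b : ℤ) ≤ (k : ℤ) := by exact_mod_cast hcard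
    omega
  have hcb0 : (0 : ℤ) ≤ (Fintype.card b : ℤ) := by positivity
  have hH1 : (1 : ℤ) ≤ (H : ℤ) := by exact_mod_cast hH
  have hN₀le : ∀ i, |N₀ i| ≤ ((k : ℤ) + 1) ^ 2 * H * E := by
    intro i
    have h1 : N₀ i = ∑ κ, M κ i * ∑ κ', G.adjugate κ κ' * β' κ' := by
      rw [hN₀]
      rfl
    rw [h1]
    have h2 : ∀ κ, |∑ κ', G.adjugate κ κ' * β' κ'| ≤ ((k : ℤ) + 1) * E := by
      intro κ
      refine (abs_sum_le_card _ E fun κ' => ?_).trans ?_
      · rw [abs_mul]
        calc |G.adjugate κ κ'| * |β' κ'| ≤ E * 1 :=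
              mul_le_mul (hadj _ _) (hβ _) (abs_nonneg _) (by linarith)
          _ = E := by ring
      · exact mul_le_mul_of_nonneg_right hcardb (by linarith)
    refine (abs_sum_le_card _ ((H : ℤ) * (((k : ℤ) + 1) * E)) fun κ => ?_).trans ?_
    · rw [abs_mul]
      exact mul_le_mul (ha _ _) (h2 κ) (abs_nonneg _) (by positivity)
    · calc (Fintype.card b : ℤ) * ((H : ℤ) * (((k : ℤ) + 1) * E))
          ≤ ((k : ℤ) + 1) * ((H : ℤ) * (((k : ℤ) + 1) * E)) :=
            mul_le_mul_of_nonneg_right hcardb (by positivity)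
        _ = _ := by ring
  have hbnd : ((bnd k H : ℕ) : ℤ) = ((k : ℤ) + 1) ^ 2 * H * E ^ 2 := by
    unfold bnd
    push_cast
    rw [hE, hX]
  refine ⟨D₀ ^ 2, fun i => D₀ * N₀ i, by positivity, ?_, ?_, ?_⟩
  · rw [hbnd]
    have h1 : D₀ ^ 2 ≤ E ^ 2 := by
      rw [← sq_abs D₀]
      exact pow_le_pow_left₀ (abs_nonneg _) hD₀le 2
    have h2 : (1 : ℤ) ≤ ((k : ℤ) + 1) ^ 2 * H := by
      have : (1 : ℤ) ≤ ((k : ℤ) + 1) ^ 2 := one_le_pow₀ (by omega)
      nlinarith
    have h3 : (0 : ℤ) ≤ E ^ 2 := by positivity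
    nlinarith
  · intro i
    rw [hbnd, abs_mul]
    calc |D₀| * |N₀ i| ≤ E * (((k : ℤ) + 1) ^ 2 * H * E) :=
          mul_le_mul hD₀le (hN₀le i) (abs_nonneg _) (by linarith)
      _ = _ := by ring
  · intro j
    have h1 := hall j
    have h2 : (β j : ℝ) ≤ ∑ i, (a j i : ℝ) * y i := by
      have := hy j
      unfold slk at this
      linarith
    have h3 : (D₀ : ℝ) ^ 2 * β j ≤ (D₀ : ℝ) * ((∑ i, a j i * N₀ i : ℤ) : ℝ) := by
      rw [h1]
      have : (0 : ℝ) ≤ (D₀ : ℝ) ^ 2 := by positivity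
      nlinarith
    have h4 : D₀ ^ 2 * β j ≤ D₀ * (∑ i, a j i * N₀ i) := by exact_mod_cast h3
    refine h4.trans_eq ?_
    rw [Finset.mul_sum]
    exact Finset.sum_congr rfl fun i _ => by ring

end Pool.Agent.H536R2.Adv
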