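import Pool.Agent.H536R2.Adv.Defs
import Pool.Agent.H536R2.Adv.Weights

set_option autoImplicit false

/-!
# Integer pseudo-distances
-/

namespace Pool.Agent.H536R2.Adv

open Finset

/-- the size bound for a universe with `u` points and inputs of length at most `N` -/
def pbnd (u N : ℕ) : ℕ := bnd (u * u + 1) (2 ^ (N + 1))

/-- **Integer pseudo-distances.** For every finite set `U` of integer points there are integers of
small size which behave like the distances of the points of `U` as far as comparisons of tours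
through at most `2 ^ N` points with integers `B ≤ 2 ^ N` are concerned. -/
theorem exists_pseudo (U : Finset (ℤ × ℤ)) (N : ℕ) :
    ∃ (s : ℤ) (D : (ℤ × ℤ) × (ℤ × ℤ) → ℤ), |s| ≤ pbnd U.card N ∧
      (∀ e, |D e| ≤ pbnd U.card N) ∧
      ∀ (l : List (ℤ × ℤ)) (B : ℕ), (∀ p ∈ l, p ∈ U) → l.length ≤ 2 ^ N → B ≤ 2 ^ N →
        (tourLength l ≤ B ↔ ((edges l).map D).sum ≤ B * s) := by
  set ι := Option (U × U) with hι
  have hcard : Fintype.card ι = U.card * U.card + 1 := by
    simp [hι, Fintype.card_option, Fintype.card_prod]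
  -- coefficient vectors
  let cf : (List (ℤ × ℤ)) × ℕ → ι → ℤ := fun q i => match i with
    | none => -(q.2 : ℤ)
    | some e => ((edges q.1).count ((e.1 : ℤ × ℤ), (e.2 : ℤ × ℤ)) : ℤ)
  let xx : ι → ℝ := fun i => match i with
    | none => 1
    | some e => edist e.1 e.2
  -- the sum of a list over the edges
  have hsum : ∀ (R : Type) [CommRing R] (f : (ℤ × ℤ) × (ℤ × ℤ) → R) (l : List (ℤ × ℤ)),
      (∀ p ∈ l, p ∈ U) → ((edges l).map f).sum
        = ∑ e : U × U, ((edges l).count ((e.1 : ℤ × ℤ), (e.2 : ℤ × ℤ)) : R) *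
            f ((e.1 : ℤ × ℤ), (e.2 : ℤ × ℤ)) := by
    intro R _ f l hl
    rw [Finset.sum_list_map_count]
    have h1 : ∀ e ∈ edges l, e.1 ∈ U ∧ e.2 ∈ U := by
      intro e he
      unfold edges at he
      have h2 := List.of_mem_zip he
      exact ⟨hl _ h2.1, hl _ (List.mem_rotate.1 h2.2)⟩
    refine (Finset.sum_subset (s₂ := U ×ˢ U) ?_ ?_).trans ?_
    · intro e he
      have := h1 e (List.mem_toFinset.1 he)
      exact Finset.mem_product.2 this
    · intro e _ he
      convert zero_smul ℕ (f e)
      unfold List.count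
      rw [List.countP_eq_zero]
      intro x hx hxe
      have : x = e := by simpa using hxe
      exact he (List.mem_toFinset.2 (this ▸ hx))
    rw [Finset.sum_product]
    rw [Fintype.sum_prod_type]
    rw [← Finset.sum_coe_sort U]
    refine Finset.sum_congr rfl fun a _ => ?_
    rw [← Finset.sum_coe_sort U]
    refine Finset.sum_congr rfl fun b _ => ?_
    rw [nsmul_eq_mul]
    congr!
  have hcf : ∀ (l : List (ℤ × ℤ)) (B : ℕ), (∀ p ∈ l, p ∈ U) →
      ∑ i, (cf (l, B) i : ℝ) * xx i = tourLength l - B := by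
    intro l B hl
    rw [Fintype.sum_option]
    unfold tourLength
    rw [hsum ℝ (fun e => edist e.1 e.2) l hl]
    simp only [cf, xx]
    push_cast
    ring
  -- the system
  set H : ℕ := 2 ^ (N + 1) with hH
  let val : (ι → ℤ) → ℝ := fun v => ∑ i, (v i : ℝ) * xx i
  let J := {v : ι → ℤ // ∀ i, v i ∈ Set.Icc (-(H : ℤ)) H}
  have hJ : Finite J := by
    have h1 : (Set.pi Set.univ fun _ : ι => Set.Icc (-(H : ℤ)) H).Finite :=
      Set.Finite.pi fun _ => Set.finite_Icc _ _
    have h2 : {v : ι → ℤ | ∀ i, v i ∈ Set.Icc (-(H : ℤ)) H}.Finite := by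
      refine h1.subset ?_
      intro v hv i _
      exact hv i
    exact h2.to_subtype
  have hFJ : Fintype J := Fintype.ofFinite J
  classical
  set c : ℝ := 1 + ∑ v : J, (if 0 < val v.1 then (val v.1)⁻¹ else 0) with hc
  have hnn : ∀ v : J, 0 ≤ (if 0 < val v.1 then (val v.1)⁻¹ else (0 : ℝ)) := by
    intro v
    split_ifs with h
    · exact inv_nonneg.2 h.le
    · exact le_rfl
  have hc1 : 1 ≤ c := by
    rw [hc]
    have := Finset.sum_nonneg fun v (_ : v ∈ (Finset.univ : Finset J)) => hnn v
    linarith
  have hcv : ∀ v : J, 0 < val v.1 → 1 ≤ c * val v.1 := by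
    intro v hv
    have h1 : (val v.1)⁻¹ ≤ c := by
      have h2 := Finset.single_le_sum (f := fun v : J => (if 0 < val v.1 then (val v.1)⁻¹ else (0 : ℝ)))
        (fun v _ => hnn v) (Finset.mem_univ v)
      simp only [hv, if_true] at h2
      rw [hc]
      linarith
    have h3 := mul_le_mul_of_nonneg_right h1 hv.le
    rwa [inv_mul_cancel₀ hv.ne'] at h3
  obtain ⟨D₀, W, hD₀, -, hW, hsol⟩ := exists_small_solution
    (a := fun (v : J) i => if 0 < val v.1 then v.1 i else - v.1 i)
    (β := fun v : J => if 0 < val v.1 then 1 else 0) H (by rw [hH]; exact Nat.one_le_two_pow)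
    (fun v i => by
      have h1 := v.2 i
      rw [Set.mem_Icc] at h1
      split_ifs
      · exact abs_le.2 ⟨h1.1, h1.2⟩
      · rw [abs_neg]; exact abs_le.2 ⟨h1.1, h1.2⟩)
    (fun v => by split_ifs <;> simp)
    (fun i => c * xx i)
    (fun v => by
      have e1 : ∑ i, ((v.1 i : ℤ) : ℝ) * (c * xx i) = c * val v.1 := by
        simp only [val, Finset.mul_sum]
        exact Finset.sum_congr rfl fun i _ => by ring
      by_cases h : 0 < val v.1
      · simp only [h, if_true, Int.cast_one]
        rw [e1]
        exact hcv v h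
      · simp only [h, if_false, Int.cast_zero, Int.cast_neg, neg_mul, Finset.sum_neg_distrib]
        rw [e1]
        have : val v.1 ≤ 0 := not_lt.1 h
        nlinarith)
  have hWH : ∀ i, |W i| ≤ (pbnd U.card N : ℤ) := by
    intro i
    have := hW i
    rw [hcard] at this
    exact this
  have hpos : 0 < pbnd U.card N := by
    unfold pbnd bnd
    positivity
  refine ⟨W none, fun e => if h : e.1 ∈ U ∧ e.2 ∈ U then W (some (⟨e.1, h.1⟩, ⟨e.2, h.2⟩)) else 0,
    hWH none, ?_, ?_⟩
  · intro e
    dsimp only
    split_ifs with h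
    · exact hWH _
    · simp
  · intro l B hl hlN hB
    have hlen : (edges l).length ≤ 2 ^ N := by
      unfold edges
      rw [List.length_zip]
      exact (min_le_left _ _).trans hlN
    have h2N : 2 ^ N ≤ H := by rw [hH]; exact Nat.pow_le_pow_right (by norm_num) (by omega)
    let v : J := ⟨cf (l, B), fun i => by
      rw [Set.mem_Icc]
      rcases i with _ | e
      · simp only [cf]
        have : (B : ℤ) ≤ H := by exact_mod_cast hB.trans h2N
        constructor
        · omega
        · have : (0 : ℤ) ≤ B := by positivity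
          omega
      · simp only [cf]
        have h1 := List.count_le_length (a := ((e.1 : ℤ × ℤ), (e.2 : ℤ × ℤ))) (l := edges l)
        have h2 : (((edges l).count ((e.1 : ℤ × ℤ), (e.2 : ℤ × ℤ)) : ℕ) : ℤ) ≤ H := by
          exact_mod_cast h1.trans (hlen.trans h2N)
        constructor
        · have : (0 : ℤ) ≤ (((edges l).count ((e.1 : ℤ × ℤ), (e.2 : ℤ × ℤ)) : ℕ) : ℤ) := by
            positivity
          omega
        · exact h2⟩
    have hval : val v.1 = tourLength l - B := hcf l B hl
    have hint : ∑ i, v.1 i * W i = ((edges l).map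
        (fun e => if h : e.1 ∈ U ∧ e.2 ∈ U then W (some (⟨e.1, h.1⟩, ⟨e.2, h.2⟩)) else 0)).sum
        - B * W none := by
      rw [Fintype.sum_option]
      rw [hsum ℤ _ l hl]
      simp only [v, cf]
      have : ∀ e : U × U, (if h : (e.1 : ℤ × ℤ) ∈ U ∧ (e.2 : ℤ × ℤ) ∈ U then
          W (some (⟨(e.1 : ℤ × ℤ), h.1⟩, ⟨(e.2 : ℤ × ℤ), h.2⟩)) else 0) = W (some e) := by
        intro e
        rw [dif_pos ⟨e.1.2, e.2.2⟩]
      simp only [this]
      push_cast
      ring
    have hs := hsol v
    by_cases h : 0 < val v.1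
    · simp only [h, if_true, mul_one] at hs
      rw [hint] at hs
      rw [hval] at h
      constructor
      · intro h'; linarith
      · intro h'; exfalso; linarith
    · simp only [h, if_false, mul_zero, neg_mul, Finset.sum_neg_distrib] at hs
      rw [hint] at hs
      rw [hval] at h
      constructor
      · intro _; linarith
      · intro _; linarith

end Pool.Agent.H536R2.Adv
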